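import Pool.Agent.H26.REM.Targets

/-!
# Row IDV: the Gram determinant of the fractional ideal generated by a tuple
-/

set_option autoImplicit false

open NumberField Height Finset Polynomial Pool.Agent.H26.REM

namespace Pool.Agent.H7.REM

/-- The Gram determinant of the vectors. -/
private theorem gdv (M : Type) [Field M] [NumberField M] (w : (M →+* ℂ) → ℝ) {J : Type}
    [Fintype J] [DecidableEq J] (z : J → M) (e : J ≃ (M →+* ℂ)) :
    GD (fun i => vec M w (z i)) =
      (∏ s, w s) ^ 2 * ‖(Matrix.of fun i l => e l (z i)).det‖ ^ 2 := by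
  have h1 : Matrix.gram ℂ (fun i => vec M w (z i)) =
      (Matrix.of fun l i => (w (e l) : ℂ) * e l (z i)).conjTranspose *
        Matrix.of fun l i => (w (e l) : ℂ) * e l (z i) := by
    ext i j
    rw [Matrix.gram_apply, Matrix.mul_apply, PiLp.inner_apply, ← Equiv.sum_comp e]
    apply Finset.sum_congr rfl
    intro l _
    rw [Matrix.conjTranspose_apply, RCLike.inner_apply, mul_comm]
    rfl
  have h2 : (Matrix.of fun l i => (w (e l) : ℂ) * e l (z i)).det =
      ((∏ s, w s : ℝ) : ℂ) * (Matrix.of fun i l => e l (z i)).det := by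
    have h3 := Matrix.det_mul_column (fun l => (w (e l) : ℂ)) (Matrix.of fun l i => e l (z i))
    have h4 : (Matrix.of fun l i => e l (z i)).det = (Matrix.of fun i l => e l (z i)).det := by
      rw [← Matrix.det_transpose]
      rfl
    rw [← h4, Complex.ofReal_prod, ← Equiv.prod_comp e (fun s => (w s : ℂ)), ← h3]
    rfl
  rw [GD, h1, Matrix.det_mul, Matrix.det_conjTranspose, norm_mul, norm_star, h2, norm_mul,
    Complex.norm_real, Real.norm_eq_abs]
  rw [show ∀ a b : ℝ, |a| * b * (|a| * b) = |a| ^ 2 * b ^ 2 by intros; ring, sq_abs]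

/-- The Gram determinant does not depend on the order. -/
private theorem gdr {E J K : Type} [NormedAddCommGroup E] [InnerProductSpace ℂ E] [Fintype J]
    [DecidableEq J] [Fintype K] [DecidableEq K] (f : J ≃ K) (v : K → E) :
    GD (fun i => v (f i)) = GD v := by
  rw [GD, GD, ← Matrix.det_submatrix_equiv_self f (Matrix.gram ℂ v)]
  rfl

open Classical in
/-- The determinant of the integral basis. -/
private theorem dsc (M : Type) [Field M] [NumberField M] :
    ∃ e : Module.Free.ChooseBasisIndex ℤ (𝓞 M) ≃ (M →+* ℂ),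
      ‖(Matrix.of fun i l => e l ((RingOfIntegers.basis M i : 𝓞 M) : M)).det‖ ^ 2 =
        |(discr M : ℝ)| := by
  have hcard : Fintype.card (Module.Free.ChooseBasisIndex ℤ (𝓞 M)) =
      Fintype.card (M →ₐ[ℚ] ℂ) := by
    rw [AlgHom.card, ← RingOfIntegers.rank M, Module.finrank_eq_card_chooseBasisIndex]
  let e0 : Module.Free.ChooseBasisIndex ℤ (𝓞 M) ≃ (M →ₐ[ℚ] ℂ) := Fintype.equivOfCardEq hcard
  refine ⟨e0.trans (RingHom.equivRatAlgHom M ℂ).symm, ?_⟩
  have h1 := Algebra.discr_eq_det_embeddingsMatrixReindex_pow_two ℚ ℂ (integralBasis M) e0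
  rw [← coe_discr] at h1
  have h2 : (Algebra.embeddingsMatrixReindex ℚ ℂ (integralBasis M) e0) =
      Matrix.of fun i l => (e0.trans (RingHom.equivRatAlgHom M ℂ).symm) l
        ((RingOfIntegers.basis M i : 𝓞 M) : M) := by
    ext i l
    simp [Algebra.embeddingsMatrixReindex, RingHom.equivRatAlgHom]
  rw [← h2, ← norm_pow, ← h1]
  simp

open Classical in
/-- The determinant of a basis of an ideal. -/
private theorem nmi (M : Type) [Field M] [NumberField M] (I : Ideal (𝓞 M))
    (z : Module.Free.ChooseBasisIndex ℤ (𝓞 M) → 𝓞 M) (hz : LinearIndependent ℤ z)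
    (hs : Submodule.span ℤ (Set.range z) = I.restrictScalars ℤ)
    (e : Module.Free.ChooseBasisIndex ℤ (𝓞 M) ≃ (M →+* ℂ))
    (he : ‖(Matrix.of fun i l => e l ((RingOfIntegers.basis M i : 𝓞 M) : M)).det‖ ^ 2 =
        |(discr M : ℝ)|) :
    ‖(Matrix.of fun i l => e l ((z i : 𝓞 M) : M)).det‖ ^ 2 =
      |(discr M : ℝ)| * (Ideal.absNorm I : ℝ) ^ 2 := by
  let bI : Module.Basis (Module.Free.ChooseBasisIndex ℤ (𝓞 M)) ℤ I :=
    (Module.Basis.span hz).map (LinearEquiv.ofEq _ _ hs)
  have hbI : (fun x => x : I → 𝓞 M) ∘ bI = z := by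
    funext i
    change ((LinearEquiv.ofEq _ _ hs (Module.Basis.span hz i) : I.restrictScalars ℤ) : 𝓞 M) = z i
    rw [LinearEquiv.coe_ofEq_apply, Module.Basis.span_apply]
  have h1 := Ideal.natAbs_det_basis_change (RingOfIntegers.basis M) I bI
  have h2 : ((RingOfIntegers.basis M).det z).natAbs = Ideal.absNorm I := by
    rw [← h1, ← hbI]
  have h3 : (Matrix.of fun i l => e l ((z i : 𝓞 M) : M)) =
      ((Int.castRingHom ℂ).mapMatrix ((RingOfIntegers.basis M).toMatrix z).transpose) *
        Matrix.of fun i l => e l ((RingOfIntegers.basis M i : 𝓞 M) : M) := by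
    ext j l
    rw [Matrix.mul_apply]
    have h4 := (RingOfIntegers.basis M).sum_toMatrix_smul_self z j
    have h5 : e l ((z j : 𝓞 M) : M) =
        ∑ i, (((RingOfIntegers.basis M).toMatrix z i j : ℤ) : ℂ) *
          e l ((RingOfIntegers.basis M i : 𝓞 M) : M) := by
      conv_lhs => rw [← h4]
      simp
    rw [Matrix.of_apply, h5]
    rfl
  rw [h3, Matrix.det_mul, ← RingHom.map_det, Matrix.det_transpose, norm_mul, mul_pow, he,
    mul_comm]
  congr 2
  have h6 : ((RingOfIntegers.basis M).toMatrix z).det = (RingOfIntegers.basis M).det z :=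
    (Module.Basis.det_apply _ _).symm
  rw [h6, ← h2]
  simp [Nat.cast_natAbs]

/-- The product over the embeddings. -/
private theorem pem (M S : Type) [Field M] [NumberField M] (y : S → M) :
    ∏ v : InfinitePlace M, (⨆ b, v (y b)) ^ v.mult = ∏ s : M →+* ℂ, ⨆ b, ‖s (y b)‖ := by
  classical
  rw [← Finset.prod_fiberwise Finset.univ InfinitePlace.mk (fun s : M →+* ℂ => ⨆ b, ‖s (y b)‖)]
  apply Finset.prod_congr rfl
  intro v _
  have h1 : ∀ s ∈ ({s | InfinitePlace.mk s = v} : Finset (M →+* ℂ)),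
      (⨆ b, ‖s (y b)‖) = ⨆ b, v (y b) := by
    intro s hs
    rw [← (Finset.mem_filter.mp hs).2]
    rfl
  rw [Finset.prod_congr rfl h1, Finset.prod_const, InfinitePlace.card_filter_mk_eq]

/-- The sums. -/
private theorem csm (M : Type) [Field M] [NumberField M] {k : ℕ} (c : Fin k → ℤ)
    (z : Fin k → 𝓞 M) : ((∑ i, c i • z i : 𝓞 M) : M) = ∑ i, (c i : M) * (z i : M) := by
  rw [RingOfIntegers.coe_eq_algebraMap, map_sum]
  apply Finset.sum_congr rfl
  intro i _
  rw [map_zsmul, zsmul_eq_mul, RingOfIntegers.coe_eq_algebraMap]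

/-- A common denominator. -/
private theorem cdn (M S : Type) [Field M] [NumberField M] [Finite S] (Y : S → M) :
    ∃ (d : ℕ) (y : S → 𝓞 M), d ≠ 0 ∧ ∀ b, (y b : M) = (d : M) * Y b := by
  classical
  have := Fintype.ofFinite S
  choose n hn0 _ hni using fun b => exists_nat_le_mulHeight₁ (Y b)
  have hint : ∀ b, IsIntegral ℤ (((∏ c, n c : ℕ) : M) * Y b) := by
    intro b
    rw [← Finset.mul_prod_erase Finset.univ n (Finset.mem_univ b), Nat.cast_mul]
    have h1 : IsIntegral ℤ (((∏ c ∈ Finset.univ.erase b, n c : ℕ)) : M) :=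
      (isIntegral_algebraMap (R := ℤ) (A := M) (x := ((∏ c ∈ Finset.univ.erase b, n c : ℕ) : ℤ))
        |> fun h => by simpa using h)
    have h2 := h1.mul (hni b)
    have h3 : (n b : M) * (((∏ c ∈ Finset.univ.erase b, n c : ℕ)) : M) * Y b =
        (((∏ c ∈ Finset.univ.erase b, n c : ℕ)) : M) * ((n b : M) * Y b) := by ring
    rw [h3]
    exact h2
  exact ⟨∏ c, n c, fun b => (⟨((∏ c, n c : ℕ) : M) * Y b, hint b⟩ : 𝓞 M),
    Finset.prod_ne_zero_iff.2 fun c _ => hn0 c, fun b => rfl⟩

/-- The elements of the lattice. -/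
private theorem mll (M S : Type) [Field M] [NumberField M] (Y : S → M) (d : ℕ) (y : S → 𝓞 M)
    (hd : d ≠ 0) (hy : ∀ b, (y b : M) = (d : M) * Y b) (x : M) :
    x ∈ LL Y ↔ ∃ t ∈ Ideal.span (Set.range y), (t : M) = (d : M) * x := by
  have hd' : (d : M) ≠ 0 := by exact_mod_cast hd
  have hmap : (Submodule.span (𝓞 M) (Set.range Y)).map (LinearMap.mulLeft (𝓞 M) (d : M)) =
      Submodule.map (Algebra.linearMap (𝓞 M) M) (Ideal.span (Set.range y)) := by
    rw [Submodule.map_span, Ideal.span, Submodule.map_span, ← Set.range_comp, ← Set.range_comp]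
    congr 2
    funext b
    exact (hy b).symm
  constructor
  · intro hx
    have h1 : (d : M) * x ∈ (Submodule.span (𝓞 M) (Set.range Y)).map
        (LinearMap.mulLeft (𝓞 M) (d : M)) := ⟨x, hx, rfl⟩
    rw [hmap] at h1
    obtain ⟨t, ht, ht2⟩ := h1
    exact ⟨t, ht, ht2⟩
  · rintro ⟨t, ht, ht2⟩
    have h1 : (d : M) * x ∈ Submodule.map (Algebra.linearMap (𝓞 M) M)
        (Ideal.span (Set.range y)) := ⟨t, ht, ht2⟩
    rw [← hmap] at h1
    obtain ⟨x', hx', hx2⟩ := h1
    have h2 : x' = x := mul_left_cancel₀ hd' hx2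
    rw [← h2]
    exact hx'

theorem pf_IDV : T_IDV := by
  classical
  intro M _ _ S _ Y hY k z hz
  obtain ⟨hli, hsp, hmem⟩ := hz
  obtain ⟨d, y, hd, hy⟩ := cdn M S Y
  have hd' : (d : M) ≠ 0 := by exact_mod_cast hd
  have hmll := mll M S Y d y hd hy
  -- the basis of the ideal
  have hzLL : ∀ i, z i ∈ LL Y := fun i =>
    ((hmem (z i)).1 (Submodule.subset_span ⟨i, rfl⟩)).1
  choose z' hz'I hz' using fun i => (hmll (z i)).1 (hzLL i)
  have hli' : LinearIndependent ℤ z' := by
    rw [Fintype.linearIndependent_iff]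
    intro c hc i
    have h1 : ∑ j, ((c j : ℚ)) • z j = 0 := by
      have h2 : ((∑ j, c j • z' j : 𝓞 M) : M) = 0 := by rw [hc]; simp
      have h3 : ((∑ j, c j • z' j : 𝓞 M) : M) = (d : M) * ∑ j, (c j : ℚ) • z j := by
        rw [csm, Finset.mul_sum]
        apply Finset.sum_congr rfl
        intro j _
        rw [hz', Rat.smul_def]
        push_cast
        ring
      rw [h3] at h2
      exact (mul_eq_zero.1 h2).resolve_left hd'
    have h4 := Fintype.linearIndependent_iff.1 hli (fun j => (c j : ℚ)) h1 i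
    exact_mod_cast h4
  have hsp' : Submodule.span ℤ (Set.range z') =
      (Ideal.span (Set.range y)).restrictScalars ℤ := by
    apply le_antisymm
    · rw [Submodule.span_le]
      rintro _ ⟨i, rfl⟩
      exact hz'I i
    · intro t ht
      have h1 : (d : M)⁻¹ * (t : M) ∈ LL Y := by
        rw [hmll]
        exact ⟨t, ht, by rw [mul_inv_cancel_left₀ hd']⟩
      have h2 := (hmem _).2 ⟨h1, Submodule.mem_top⟩
      rw [Submodule.mem_span_range_iff_exists_fun] at h2
      obtain ⟨c, hc⟩ := h2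
      rw [Submodule.mem_span_range_iff_exists_fun]
      refine ⟨c, ?_⟩
      apply RingOfIntegers.ext
      rw [csm]
      have h3 : (t : M) = (d : M) * ∑ i, c i • z i := by
        rw [hc, mul_inv_cancel_left₀ hd']
      rw [h3, Finset.mul_sum]
      apply Finset.sum_congr rfl
      intro j _
      rw [hz', zsmul_eq_mul]
      ring
  -- the order
  have hk : Fintype.card (Fin k) = Module.finrank ℚ M :=
    (Module.finrank_eq_card_basis (Module.Basis.mk hli hsp.ge)).symm
  have hcard : Fintype.card (Module.Free.ChooseBasisIndex ℤ (𝓞 M)) = Fintype.card (Fin k) := by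
    rw [hk, ← RingOfIntegers.rank M, Module.finrank_eq_card_chooseBasisIndex]
  let f : Module.Free.ChooseBasisIndex ℤ (𝓞 M) ≃ Fin k := Fintype.equivOfCardEq hcard
  obtain ⟨e, he⟩ := dsc M
  have hnm := nmi M (Ideal.span (Set.range y)) (fun j => z' (f j))
    (hli'.comp f f.injective) (by
      rw [← hsp']
      congr 1
      exact f.surjective.range_comp z') e he
  -- the vectors
  have hvec : ∀ i, vec M (wt Y) (z i) = vec M (wt fun b => (y b : M)) (z' i : M) := by
    intro i
    ext s
    change ((wt Y s : ℝ) : ℂ) * s (z i) =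
      ((wt (fun b => (y b : M)) s : ℝ) : ℂ) * s (z' i : M)
    have h1 : (⨆ b, ‖s (y b : M)‖) = (d : ℝ) * ⨆ b, ‖s (Y b)‖ := by
      rw [Real.mul_iSup_of_nonneg (Nat.cast_nonneg d)]
      congr 1
      funext b
      rw [hy, map_mul, norm_mul, map_natCast, Complex.norm_natCast]
    have hdC : (d : ℂ) ≠ 0 := by exact_mod_cast hd
    rw [wt, wt, h1, hz', map_mul, map_natCast]
    push_cast
    rw [mul_inv]
    field_simp
  have hGD : GD (fun i => vec M (wt Y) (z i)) =
      (∏ s, wt (fun b => (y b : M)) s) ^ 2 *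
        (|(discr M : ℝ)| * (Ideal.absNorm (Ideal.span (Set.range y)) : ℝ) ^ 2) := by
    rw [← hnm, ← gdv M (wt fun b => (y b : M)) (fun j => (z' (f j) : M)) e,
      gdr f (fun i => vec M (wt fun b => (y b : M)) (z' i : M))]
    congr 1
    funext i
    exact hvec i
  -- the height
  have hy0 : y ≠ 0 := by
    intro h0
    apply hY
    funext b
    have h1 := hy b
    rw [h0] at h1
    have h2 : (d : M) * Y b = 0 := by rw [← h1]; simp
    exact (mul_eq_zero.1 h2).resolve_left hd'
  have hy0' : (fun b => (y b : M)) ≠ 0 := by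
    intro h0
    apply hy0
    funext b
    apply RingOfIntegers.ext
    exact congrFun h0 b
  have hlog : logHeight Y = logHeight (fun b => (y b : M)) := by
    rw [← logHeight_smul_eq_logHeight Y hd']
    congr 1
    funext b
    rw [hy]
    rfl
  have hmul := NumberField.mulHeight_eq hy0'
  have hfin := absNorm_mul_finprod_finitePlace_eq_one hy0
  rw [pem] at hmul
  have hwt : ∏ s : M →+* ℂ, wt (fun b => (y b : M)) s =
      (∏ s : M →+* ℂ, ⨆ b, ‖s (y b : M)‖)⁻¹ := by
    rw [← Finset.prod_inv_distrib]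
    rfl
  have hN0 : (Ideal.absNorm (Ideal.span (Set.range y)) : ℝ) ≠ 0 := by
    intro h0
    rw [h0, zero_mul] at hfin
    exact zero_ne_one hfin
  have hpos : 0 < mulHeight (fun b => (y b : M)) := mulHeight_pos _
  have hexp : Real.exp (-2 * logHeight Y) = (mulHeight (fun b => (y b : M)) ^ 2)⁻¹ := by
    rw [hlog, logHeight_eq_log_mulHeight, show -2 * Real.log (mulHeight fun b => (y b : M)) =
      -(Real.log (mulHeight fun b => (y b : M)) + Real.log (mulHeight fun b => (y b : M))) by
        ring, Real.exp_neg, Real.exp_add, Real.exp_log hpos, sq]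
  have hP : mulHeight (fun b => (y b : M)) =
      (∏ s : M →+* ℂ, ⨆ b, ‖s (y b : M)‖) *
        (Ideal.absNorm (Ideal.span (Set.range y)) : ℝ)⁻¹ := by
    rw [hmul]
    congr 1
    exact eq_inv_of_mul_eq_one_right hfin
  rw [hGD, hexp, hwt, hP, mul_pow, mul_inv, inv_pow, inv_pow, inv_inv]
  ring

end Pool.Agent.H7.REM
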