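import Pool.Agent.H26.REM.Targets3

/-!
# Row PDJ: the cyclotomic polynomial is irreducible over the level field
-/

set_option autoImplicit false

open NumberField Height Finset Polynomial Pool.Agent.H26.REM
open Pool.Agent.H24.RD (Lv)
open Pool.Agent.H29.LG (GoodP)

namespace Pool.Agent.H7.REM

/-- The exponents are different modulo the integers. -/
private theorem exq (p k : ℕ) (hp : p.Prime) (l l' : Fin (p - 1) × Fin (p ^ k)) (hl : l ≠ l')
    (n : ℤ) :
    ((l.1 : ℕ) : ℝ) / ((p : ℝ) - 1) + ((l.2 : ℕ) : ℝ) / (p : ℝ) ^ k -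
      (((l'.1 : ℕ) : ℝ) / ((p : ℝ) - 1) + ((l'.2 : ℕ) : ℝ) / (p : ℝ) ^ k) ≠ n := by
  intro h
  have hp1 : (1 : ℝ) < p := by exact_mod_cast hp.one_lt
  have h1 : (p : ℝ) - 1 ≠ 0 := by linarith
  have h2 : (p : ℝ) ^ k ≠ 0 := by positivity
  have h3 : (((l.1 : ℕ) : ℝ) - ((l'.1 : ℕ) : ℝ)) * (p : ℝ) ^ k +
      (((l.2 : ℕ) : ℝ) - ((l'.2 : ℕ) : ℝ)) * ((p : ℝ) - 1) =
      n * (((p : ℝ) - 1) * (p : ℝ) ^ k) := by
    rw [← h]
    field_simp
    ring
  have h4 : (((l.1 : ℕ) : ℤ) - ((l'.1 : ℕ) : ℤ)) * (p : ℤ) ^ k +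
      (((l.2 : ℕ) : ℤ) - ((l'.2 : ℕ) : ℤ)) * ((p : ℤ) - 1) =
      n * (((p : ℤ) - 1) * (p : ℤ) ^ k) := by exact_mod_cast h3
  have hpk : 1 ≤ p := hp.one_lt.le
  have h5 : ((p : ℤ) - 1) ∣ (((l.1 : ℕ) : ℤ) - ((l'.1 : ℕ) : ℤ)) * (p : ℤ) ^ k :=
    ⟨n * (p : ℤ) ^ k - (((l.2 : ℕ) : ℤ) - ((l'.2 : ℕ) : ℤ)), by linear_combination h4⟩
  have h6 : IsCoprime ((p : ℤ) - 1) ((p : ℤ) ^ k) := by
    apply IsCoprime.pow_right
    exact ⟨-1, 1, by ring⟩
  have h7 := h6.dvd_of_dvd_mul_right h5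
  have h8 : ((l.1 : ℕ) : ℤ) - ((l'.1 : ℕ) : ℤ) = 0 := by
    apply Int.eq_zero_of_abs_lt_dvd h7
    have a1 := l.1.2
    have a2 := l'.1.2
    rw [abs_lt]
    constructor <;> omega
  rw [h8, zero_mul, zero_add] at h4
  have hp0 : (p : ℤ) - 1 ≠ 0 := by
    have := hp.one_lt
    omega
  have h9 : ((l.2 : ℕ) : ℤ) - ((l'.2 : ℕ) : ℤ) = n * (p : ℤ) ^ k :=
    mul_right_cancel₀ hp0 (by linear_combination h4)
  have h10 : ((l.2 : ℕ) : ℤ) - ((l'.2 : ℕ) : ℤ) = 0 := by
    apply Int.eq_zero_of_abs_lt_dvd (m := (p : ℤ) ^ k) ⟨n, by rw [h9]; ring⟩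
    have a1 : ((l.2 : ℕ) : ℤ) < (p : ℤ) ^ k := by exact_mod_cast l.2.2
    have a2 : ((l'.2 : ℕ) : ℤ) < (p : ℤ) ^ k := by exact_mod_cast l'.2.2
    rw [abs_lt]
    constructor <;> omega
  apply hl
  ext
  · omega
  · omega

/-- Irreducibility from the ramification. -/
private theorem core2 (hVLI : T_VLI) (M E : Type) [Field M] [NumberField M] [Field E] [CharZero E]
    [Algebra M E] (p k : ℕ) (hp : p.Prime) (w : AbsoluteValue E ℝ) (hna : IsNonarchimedean w)
    (c : ℝ) (hc0 : 0 < c) (hc1 : c < 1) (z : E) (hz : IsPrimitiveRoot z p)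
    (hwz : w (1 - z) = c ^ (1 / ((p : ℝ) - 1))) (B : IntermediateField ℚ M)
    (hB : ∀ x : B, x ≠ 0 → ∃ n : ℤ, w (algebraMap M E x) = c ^ n)
    (hfin : Module.finrank B M ≤ p ^ k) (y : M)
    (hy : ∀ i < p ^ k, w (algebraMap M E y ^ i) = c ^ ((i : ℝ) / (p : ℝ) ^ k)) :
    Irreducible (cyclotomic p M) := by
  have hLI : LinearIndependent B (fun l : Fin (p - 1) × Fin (p ^ k) =>
      (1 - z) ^ (l.1 : ℕ) * algebraMap M E y ^ (l.2 : ℕ)) := by
    refine hVLI B E w hna c hc0 hc1 (fun x hx => hB x hx) _ _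
      (fun l => ((l.1 : ℕ) : ℝ) / ((p : ℝ) - 1) + ((l.2 : ℕ) : ℝ) / (p : ℝ) ^ k) ?_ ?_
    · intro l
      rw [map_mul, map_pow, hwz, hy _ l.2.2, Real.rpow_add hc0, ← Real.rpow_natCast,
        ← Real.rpow_mul hc0.le]
      congr 2
      ring
    · intro l l' hl n
      exact exq p k hp l l' hl n
  have hp1 : 0 < p - 1 := by have := hp.one_lt; omega
  -- the powers of `y` are a basis
  have hLI0 : LinearIndependent B (fun i : Fin (p ^ k) => y ^ (i : ℕ)) := by
    have h1 : LinearIndependent B (fun i : Fin (p ^ k) => algebraMap M E (y ^ (i : ℕ))) := by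
      have h2 := hLI.comp (fun i : Fin (p ^ k) => ((⟨0, hp1⟩ : Fin (p - 1)), i))
        (fun i j h => (Prod.ext_iff.1 h).2)
      have h3 : (fun i : Fin (p ^ k) => algebraMap M E (y ^ (i : ℕ))) =
          (fun l : Fin (p - 1) × Fin (p ^ k) =>
            (1 - z) ^ (l.1 : ℕ) * algebraMap M E y ^ (l.2 : ℕ)) ∘
            fun i : Fin (p ^ k) => ((⟨0, hp1⟩ : Fin (p - 1)), i) := by
        funext i
        simp
      rw [h3]
      exact h2
    exact LinearIndependent.of_comp ((Algebra.linearMap M E).restrictScalars B) h1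
  have hcard : Fintype.card (Fin (p ^ k)) = Module.finrank B M := by
    apply le_antisymm
    · exact hLI0.fintype_card_le_finrank
    · rw [Fintype.card_fin]
      exact hfin
  have hspan := hLI0.span_eq_top_of_card_eq_finrank' hcard
  -- the powers of `1 - z` are independent
  have hLIM : LinearIndependent M (fun j : Fin (p - 1) => (1 - z) ^ (j : ℕ)) := by
    rw [Fintype.linearIndependent_iff]
    intro g hg
    have h1 : ∀ j, ∃ d : Fin (p ^ k) → B, ∑ i, d i • y ^ (i : ℕ) = g j := by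
      intro j
      have h2 : g j ∈ Submodule.span B (Set.range fun i : Fin (p ^ k) => y ^ (i : ℕ)) := by
        rw [hspan]; exact Submodule.mem_top
      exact (Submodule.mem_span_range_iff_exists_fun B).1 h2
    choose d hd using h1
    have h3 : ∑ l : Fin (p - 1) × Fin (p ^ k), d l.1 l.2 •
        ((1 - z) ^ (l.1 : ℕ) * algebraMap M E y ^ (l.2 : ℕ)) = 0 := by
      rw [← hg, Fintype.sum_prod_type]
      apply Finset.sum_congr rfl
      intro j _
      rw [← hd j, Finset.sum_smul]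
      apply Finset.sum_congr rfl
      intro i _
      rw [smul_assoc, Algebra.smul_def (y ^ (i : ℕ)), map_pow, mul_comm]
    have h4 := Fintype.linearIndependent_iff.1 hLI (fun l => d l.1 l.2) h3
    intro j
    rw [← hd j]
    apply Finset.sum_eq_zero
    intro i _
    rw [h4 (j, i), zero_smul]
  -- the minimal polynomial
  have hint : IsIntegral M z := by
    refine ⟨X ^ p - 1, monic_X_pow_sub_C 1 hp.ne_zero, ?_⟩
    simp [hz.pow_eq_one]
  have hroot : aeval z (cyclotomic p M) = 0 := by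
    have h1 : (cyclotomic p E).IsRoot z := hz.isRoot_cyclotomic hp.pos
    rw [aeval_def, ← eval_map, map_cyclotomic]
    exact h1
  have hdeg : p - 1 ≤ (minpoly M z).natDegree := by
    by_contra hlt
    push Not at hlt
    have hf0 : minpoly M z ≠ 0 := minpoly.ne_zero hint
    set G := (minpoly M z).comp (1 - X) with hG
    have hG1 : aeval (1 - z) G = 0 := by
      rw [hG, aeval_comp]
      have h2 : aeval (1 - z) (1 - X : M[X]) = z := by simp
      rw [h2, minpoly.aeval]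
    have hG0 : G ≠ 0 := by
      intro h0
      apply hf0
      have h1 : G.comp (1 - X) = minpoly M z := by
        rw [hG, comp_assoc]
        have h2 : (1 - X : M[X]).comp (1 - X) = X := by simp
        rw [h2, comp_X]
      rw [← h1, h0, zero_comp]
    have hGd : G.natDegree < p - 1 := by
      rw [hG, natDegree_comp]
      have h1 : (1 - X : M[X]).natDegree ≤ 1 := by
        refine (natDegree_sub_le _ _).trans ?_
        simp
      calc (minpoly M z).natDegree * (1 - X : M[X]).natDegree ≤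
            (minpoly M z).natDegree * 1 := Nat.mul_le_mul_left _ h1
        _ < p - 1 := by omega
    rw [aeval_eq_sum_range' hGd, ← Fin.sum_univ_eq_sum_range
      (fun i => G.coeff i • (1 - z) ^ i)] at hG1
    have h5 := Fintype.linearIndependent_iff.1 hLIM (fun j => G.coeff j) hG1
    apply hG0
    ext i
    rw [coeff_zero]
    by_cases hi : i < p - 1
    · exact h5 ⟨i, hi⟩
    · exact coeff_eq_zero_of_natDegree_lt (by omega)
  have hmon : (cyclotomic p M).Monic := cyclotomic.monic p M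
  have hcd : (cyclotomic p M).natDegree = p - 1 := by
    rw [natDegree_cyclotomic, Nat.totient_prime hp]
  have heq : cyclotomic p M = minpoly M z :=
    eq_of_monic_of_dvd_of_natDegree_le (minpoly.monic hint) hmon (minpoly.dvd M z hroot)
      (by omega)
  rw [heq]
  exact minpoly.irreducible hint

/-- Elements of the level field. -/
private theorem mlv (Ω : Type) [Field Ω] [CharZero Ω] [IsAlgClosed Ω] (r : ℕ) (a : Fin r → ℚ)
    (ha : ∀ i, a i ≠ 0) (m n' n1 : ℕ) (hn' : 0 < n') (hd : n1 ∣ n') (i : Fin r) (η : Ω)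
    (hη : η ^ n1 = ((a i : ℚ) : Ω)) : η ∈ Lv ℚ Ω a (m * n') n' := by
  obtain ⟨b, hb⟩ := IsAlgClosed.exists_pow_nat_eq ((a i : ℚ) : Ω) hn'
  obtain ⟨q, hq⟩ := hd
  have hai : ((a i : ℚ) : Ω) ≠ 0 := by exact_mod_cast ha i
  have hb0 : b ≠ 0 := by
    rintro rfl
    rw [zero_pow hn'.ne'] at hb
    exact hai hb.symm
  have hbL : b ∈ Lv ℚ Ω a (m * n') n' :=
    IntermediateField.subset_adjoin ℚ _ (Or.inr ⟨i, by rw [hb]; simp⟩)
  have huL : η / b ^ q ∈ Lv ℚ Ω a (m * n') n' := by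
    refine IntermediateField.subset_adjoin ℚ _ (Or.inl ?_)
    have h1 : (η / b ^ q) ^ n1 = 1 := by
      rw [div_pow, hη, ← pow_mul, mul_comm q n1, ← hq, hb, div_self hai]
    rw [hq, show m * (n1 * q) = n1 * (m * q) by ring, pow_mul, h1, one_pow]
  have h2 : η = η / b ^ q * b ^ q := by
    rw [div_mul_cancel₀ _ (pow_ne_zero q hb0)]
  rw [h2]
  exact mul_mem huL (pow_mem hbL q)

/-- The degree of the extension by one radical. -/
private theorem frk (M : Type) [Field M] [NumberField M] (B : IntermediateField ℚ M) (θ : M)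
    (n : ℕ) (hn : 0 < n) (hθ : θ ^ n ∈ B) (S : Set M)
    (hS : IntermediateField.adjoin ℚ S = ⊤) (hSB : ∀ x ∈ S, x ∈ B ∨ x = θ) :
    Module.finrank B M ≤ n := by
  have htop : IntermediateField.adjoin B {θ} = ⊤ := by
    rw [eq_top_iff]
    intro x _
    have hx : x ∈ IntermediateField.adjoin ℚ S := by rw [hS]; exact IntermediateField.mem_top
    have hle : IntermediateField.adjoin ℚ S ≤
        (IntermediateField.adjoin B {θ}).restrictScalars ℚ := by
      rw [IntermediateField.adjoin_le_iff]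
      intro y hy
      rcases hSB y hy with h | rfl
      · exact (IntermediateField.adjoin B {θ}).algebraMap_mem ⟨y, h⟩
      · exact IntermediateField.subset_adjoin B _ rfl
    exact hle hx
  have hint : IsIntegral B θ := by
    refine ⟨X ^ n - C ⟨θ ^ n, hθ⟩, monic_X_pow_sub_C _ hn.ne', ?_⟩
    simp
  have h1 : Module.finrank B (IntermediateField.adjoin B {θ}) = (minpoly B θ).natDegree :=
    IntermediateField.adjoin.finrank hint
  rw [htop, IntermediateField.finrank_top'] at h1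
  rw [h1]
  have h2 : degree (minpoly B θ) ≤ degree (X ^ n - C (⟨θ ^ n, hθ⟩ : B)) :=
    minpoly.min B θ (monic_X_pow_sub_C _ hn.ne') (by simp)
  have h3 := natDegree_le_natDegree h2
  rwa [natDegree_X_pow_sub_C] at h3

/-- The value of an integer. -/
private theorem vin (E : Type) [Field E] [CharZero E] (p : ℕ) (w : AbsoluteValue E ℝ)
    (h : ∀ m : ℕ, ¬ p ∣ m → w (m : E) = 1) (A : ℤ) (hA : ¬ (p : ℤ) ∣ A) : w (A : E) = 1 := by
  have h1 : ¬ p ∣ A.natAbs := by
    intro hd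
    exact hA (Int.natCast_dvd.2 hd)
  rcases Int.natAbs_eq A with h2 | h2
  · rw [h2, Int.cast_natCast]
    exact h _ h1
  · rw [h2, Int.cast_neg, Int.cast_natCast, AbsoluteValue.map_neg]
    exact h _ h1

/-- The element with a small value. -/
private theorem yex (hEIV : T_EIV) (M E : Type) [Field M] [CharZero M] [Field E] [CharZero E]
    [Algebra M E] (p k : ℕ) (hp : p.Prime) (hk : 1 ≤ k) (w : AbsoluteValue E ℝ)
    (hna : IsNonarchimedean w) (hc0 : 0 < w (p : E)) (hc1 : w (p : E) < 1)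
    (hm : ∀ m : ℕ, ¬ p ∣ m → w (m : E) = 1) (A : ℤ) (π : M) (hπ : π ^ (p ^ k) = (A : M))
    (halt : (p : ℤ) ∣ A ∧ ¬ (p : ℤ) ^ 2 ∣ A ∨
      ¬ (p : ℤ) ∣ A ∧ ¬ (p : ℤ) ^ 2 ∣ A ^ (p - 1) - 1) :
    ∃ y : M, ∀ i < p ^ k, w (algebraMap M E y ^ i) = w (p : E) ^ ((i : ℝ) / (p : ℝ) ^ k) := by
  have key : ∃ y : M, w (algebraMap M E y) ^ (p ^ k) = w (p : E) := by
    have hπE : (algebraMap M E π) ^ (p ^ k) = (A : E) := by
      rw [← map_pow, hπ, map_intCast]
    rcases halt with ⟨⟨A', hA'⟩, h2⟩ | ⟨h1, h2⟩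
    · refine ⟨π, ?_⟩
      have h3 : ¬ (p : ℤ) ∣ A' := by
        rintro ⟨d, rfl⟩
        exact h2 ⟨d, by rw [hA']; ring⟩
      rw [← map_pow, hπE, hA', Int.cast_mul, map_mul, vin E p w hm A' h3, mul_one,
        Int.cast_natCast]
    · refine ⟨π - (A : M), ?_⟩
      rw [map_sub, map_intCast]
      exact hEIV E w hna p k A (algebraMap M E π) hp hk hc0 hc1 hm h1 h2 hπE
  obtain ⟨y, hy⟩ := key
  refine ⟨y, fun i _ => ?_⟩
  have hn : p ^ k ≠ 0 := pow_ne_zero k hp.ne_zero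
  have h1 : w (algebraMap M E y) = w (p : E) ^ (((p ^ k : ℕ) : ℝ)⁻¹) := by
    rw [← hy, Real.pow_rpow_inv_natCast (w.nonneg _) hn]
  rw [map_pow, h1, ← Real.rpow_natCast, ← Real.rpow_mul hc0.le]
  congr 1
  push_cast
  ring

/-- The subfield without the `p`-power radicals, and the degree over it. -/
private theorem sbf (hEIV : T_EIV) (hPIE : T_PIE) (M E : Type) [Field M] [NumberField M]
    [Field E] [CharZero E] [Algebra M E] (r m : ℕ) (a : Fin r → ℚ) (N : Fin r → ℕ) (ζ : M)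
    (θ : Fin r → M) (hL : Lev a m N ζ θ)
    (hadj : IntermediateField.adjoin ℚ (insert ζ (Set.range θ)) = ⊤) (p : ℕ) (hp : p.Prime)
    (w : AbsoluteValue E ℝ) (hna : IsNonarchimedean w) (hc0 : 0 < w (p : E))
    (hc1 : w (p : E) < 1) (hm : ∀ m : ℕ, ¬ p ∣ m → w (m : E) = 1) :
    ∃ (k : ℕ) (y : M), Module.finrank (IntermediateField.adjoin ℚ
      (insert ζ (Set.range fun i => θ i ^ (ordProj[p] (N i))))) M ≤ p ^ k ∧
      ∀ i < p ^ k, w (algebraMap M E y ^ i) = w (p : E) ^ ((i : ℝ) / (p : ℝ) ^ k) := by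
  by_cases hall : ∀ i, ¬ p ∣ N i
  · refine ⟨0, 1, ?_, ?_⟩
    · have h1 : (insert ζ (Set.range fun i => θ i ^ (ordProj[p] (N i)))) =
          insert ζ (Set.range θ) := by
        congr 2
        funext i
        rw [Nat.factorization_eq_zero_of_not_dvd (hall i), pow_zero, pow_one]
      rw [h1, hadj, IntermediateField.finrank_top, pow_zero]
    · intro i hi
      rw [pow_zero, Nat.lt_one_iff] at hi
      subst hi
      simp
  · push Not at hall
    obtain ⟨i0, hi0⟩ := hall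
    have hN0 := hL.N0 i0
    have hk : 1 ≤ (N i0).factorization p :=
      (hp.dvd_iff_one_le_factorization hN0.ne').1 hi0
    have hother : ∀ i, i ≠ i0 → ¬ p ∣ N i := by
      intro i hi hd
      have h1 := Nat.dvd_gcd hd hi0
      rw [hL.cop i i0 hi] at h1
      exact hp.one_lt.ne' (Nat.dvd_one.1 h1)
    obtain ⟨A, π, -, hπ, halt⟩ := hPIE M (a i0) (N i0) p ((N i0).factorization p) (θ i0)
      (hL.nz i0) hp hk (Nat.ordProj_dvd _ _) hN0 (hL.pow i0) (hL.good i0 p hp hi0)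
    obtain ⟨y, hy⟩ := yex hEIV M E p ((N i0).factorization p) hp hk w hna hc0 hc1 hm A π hπ halt
    refine ⟨(N i0).factorization p, y, ?_, hy⟩
    refine frk M _ (θ i0) (p ^ ((N i0).factorization p)) (pow_pos hp.pos _) ?_
      (insert ζ (Set.range θ)) hadj ?_
    · exact IntermediateField.subset_adjoin ℚ _ (Or.inr ⟨i0, rfl⟩)
    · rintro x (rfl | ⟨i, rfl⟩)
      · exact Or.inl (IntermediateField.subset_adjoin ℚ _ (Or.inl rfl))
      · by_cases hi : i = i0
        · exact Or.inr (by rw [hi])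
        · refine Or.inl (IntermediateField.subset_adjoin ℚ _ (Or.inr ⟨i, ?_⟩))
          simp only
          rw [Nat.factorization_eq_zero_of_not_dvd (hother i hi), pow_zero, pow_one]

/-- The algebraic closure of the rational numbers. -/
private theorem algq :
    @Algebra.IsAlgebraic ℚ (AlgebraicClosure ℚ) _ _ DivisionRing.toRatAlgebra := by
  have h : @Algebra.IsAlgebraic ℚ (AlgebraicClosure ℚ) _ _ (AlgebraicClosure.instAlgebra ℚ) :=
    AlgebraicClosure.isAlgebraic ℚ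
  have e : (AlgebraicClosure.instAlgebra ℚ : Algebra ℚ (AlgebraicClosure ℚ)) =
      DivisionRing.toRatAlgebra := Subsingleton.elim _ _
  rwa [e] at h

/-- The theorem inside an algebraically closed field. -/
private theorem core (hVLI : T_VLI) (hEIV : T_EIV) (hPIE : T_PIE) (hGQP : T_GQP)
    (hUNK : Pool.Agent.H29.LG.T_UNK) (hVB : Pool.Agent.H24.RD.T_VB)
    (hPFX : Pool.Agent.H29.RQ.T_PFX) (hFLD : Pool.Agent.H29.SX.T_FLD)
    (Ω : Type) [Field Ω] [CharZero Ω] [IsAlgClosed Ω] [Algebra.IsAlgebraic ℚ Ω]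
    (M : Type) [Field M] [NumberField M] (r m : ℕ) (a : Fin r → ℚ) (N : Fin r → ℕ) (ζ : M)
    (θ : Fin r → M) (hL : Lev a m N ζ θ)
    (hadj : IntermediateField.adjoin ℚ (insert ζ (Set.range θ)) = ⊤) (p : ℕ) (hp : p.Prime)
    (hpm : ¬ p ∣ m) (hpa : ∀ i, padicValRat p (a i) = 0) : Irreducible (cyclotomic p M) := by
  classical
  let ι : M →ₐ[ℚ] Ω := IsAlgClosed.lift
  -- the level
  set n' : ℕ := ∏ i, ordCompl[p] (N i) with hn'd
  have hn'0 : 0 < n' := Finset.prod_pos fun i _ => Nat.ordCompl_pos p (hL.N0 i).ne'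
  have hn'p : ¬ p ∣ n' := by
    rw [hn'd, hp.prime.dvd_finsetProd_iff]
    rintro ⟨i, -, hi⟩
    exact Nat.not_dvd_ordCompl hp (hL.N0 i).ne' hi
  have hmn0 : 0 < m * n' := Nat.mul_pos hL.m0 hn'0
  have hmnp : ¬ p ∣ m * n' := by
    rw [hp.dvd_mul]
    tauto
  -- a primitive root of unity
  have : NeZero ((p : ℕ) : Ω) := ⟨by exact_mod_cast hp.ne_zero⟩
  obtain ⟨z0, hz0⟩ : ∃ z : Ω, IsPrimitiveRoot z p := by
    obtain ⟨z, hz⟩ := IsAlgClosed.exists_root (cyclotomic p Ω)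
      (degree_cyclotomic_pos p Ω hp.pos).ne'
    exact ⟨z, isRoot_cyclotomic_iff.1 hz⟩
  -- the number field
  have hE0 : FiniteDimensional ℚ ι.fieldRange :=
    LinearEquiv.finiteDimensional ι.equivFieldRange.toLinearEquiv
  obtain ⟨E, hEf, hE0E, hsE, -⟩ := hFLD ℚ Ω ι.fieldRange hE0
    ({z0} ∪ ((nthRoots (m * n') (1 : Ω)).toFinset ∪
      univ.biUnion fun i => (nthRoots n' ((a i : ℚ) : Ω)).toFinset))
  have hnE : NumberField E := { to_charZero := inferInstance, to_finiteDimensional := hEf }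
  have hz0E : z0 ∈ E := hsE z0 (by simp)
  have hLvE : Lv ℚ Ω a (m * n') n' ≤ E := by
    refine IntermediateField.adjoin_le_iff.2 ?_
    rintro x (hx | ⟨i, hx⟩)
    · refine hsE x ?_
      rw [mem_union, mem_union, Multiset.mem_toFinset, mem_nthRoots hmn0]
      exact Or.inr (Or.inl hx)
    · refine hsE x ?_
      rw [mem_union, mem_union, mem_biUnion]
      refine Or.inr (Or.inr ⟨i, mem_univ i, ?_⟩)
      rw [Multiset.mem_toFinset, mem_nthRoots hn'0, hx]
      simp
  have hιE : ∀ x, ι x ∈ E := fun x => hE0E ⟨x, rfl⟩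
  let f : M →+* E :=
    { toFun := fun x => ⟨ι x, hιE x⟩
      map_one' := Subtype.ext (map_one ι)
      map_zero' := Subtype.ext (map_zero ι)
      map_mul' := fun x y => Subtype.ext (map_mul ι x y)
      map_add' := fun x y => Subtype.ext (map_add ι x y) }
  let _ : Algebra M E := f.toAlgebra
  -- the place
  obtain ⟨P, hP, hsum, -⟩ := hPFX E p hp
  have hPne : P.Nonempty := by
    rw [Finset.nonempty_iff_ne_empty]
    rintro rfl
    rw [sum_empty] at hsum
    have h1 : (0 : ℝ) < Module.finrank ℚ E := by exact_mod_cast Module.finrank_pos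
    have h2 : 0 < Real.log p := Real.log_pos (by exact_mod_cast hp.one_lt)
    have h3 := mul_pos h1 h2
    linarith
  obtain ⟨w, hwP⟩ := hPne
  have hw := (hP w).1 hwP
  obtain ⟨hna, hc0, -, hwm, -, hwz, -⟩ := hVB E p hp w hw
  -- the root of unity
  have hz : IsPrimitiveRoot (⟨z0, hz0E⟩ : E) p :=
    IsPrimitiveRoot.of_map_of_injective (f := E.val) (by exact hz0) E.val.injective
  have hwz1 : w.1 (1 - (⟨z0, hz0E⟩ : E)) = w.1 (p : E) ^ (1 / ((p : ℝ) - 1)) := by
    have h1 := hwz 1 ⟨z0, hz0E⟩ le_rfl (by rw [pow_one]; exact hz)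
    rw [Pool.Agent.H24.RD.wv, Nat.sub_self, pow_zero, one_mul] at h1
    have hlog : Real.log (w.1 (p : E)) < 0 := Real.log_neg hc0 hw
    have h2 : Real.log (w.1 (1 - (⟨z0, hz0E⟩ : E))) =
        1 / ((p : ℝ) - 1) * Real.log (w.1 (p : E)) := by
      rw [← h1, div_mul_cancel₀ _ hlog.ne]
    have h3 : (1 : E) - ⟨z0, hz0E⟩ ≠ 0 := by
      rw [sub_ne_zero]
      exact (hz.ne_one hp.one_lt).symm
    have h4 : 0 < w.1 (1 - (⟨z0, hz0E⟩ : E)) := w.1.pos h3
    rw [Real.rpow_def_of_pos hc0, mul_comm, ← h2, Real.exp_log h4]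
  -- the subfield
  obtain ⟨k, y, hfin, hy⟩ := sbf hEIV hPIE M E r m a N ζ θ hL hadj p hp w.1 hna hc0 hw hwm
  refine core2 hVLI M E p k hp w.1 hna (w.1 (p : E)) hc0 hw ⟨z0, hz0E⟩ hz hwz1 _ ?_ hfin y hy
  intro x hx
  have hxL : ι (x : M) ∈ Lv ℚ Ω a (m * n') n' := by
    have hle : IntermediateField.adjoin ℚ
        (insert ζ (Set.range fun i => θ i ^ (ordProj[p] (N i)))) ≤
        (Lv ℚ Ω a (m * n') n').comap ι := by
      rw [IntermediateField.adjoin_le_iff]
      rintro t (rfl | ⟨i, rfl⟩)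
      · refine IntermediateField.subset_adjoin ℚ _ (Or.inl ?_)
        rw [← map_pow, pow_mul, hL.prim.pow_eq_one, one_pow, map_one]
      · refine mlv Ω r a hL.nz m n' (ordCompl[p] (N i)) hn'0
          (Finset.dvd_prod_of_mem _ (mem_univ i)) i _ ?_
        change (ι (θ i ^ (ordProj[p] (N i)))) ^ (ordCompl[p] (N i)) = _
        rw [← map_pow, ← pow_mul, Nat.ordProj_mul_ordCompl_eq_self, hL.pow i]
        exact map_ratCast ι (a i)
    exact hle x.2
  have hfx : f (x : M) ≠ 0 := by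
    refine (_root_.map_ne_zero f).2 ?_
    intro h0
    apply hx
    exact Subtype.ext h0
  exact hUNK ℚ Ω r a hL.nz p (hGQP r a hL.nz p hp hpa) (m * n') n' hmn0
    (Dvd.intro_left m rfl) hmnp E hLvE w hw (f (x : M)) hxL hfx

theorem pf_PDJ (hVLI : T_VLI) (hEIV : T_EIV) (hPIE : T_PIE) (hGQP : T_GQP)
    (hUNK : Pool.Agent.H29.LG.T_UNK) (hVB : Pool.Agent.H24.RD.T_VB)
    (hPFX : Pool.Agent.H29.RQ.T_PFX) (hFLD : Pool.Agent.H29.SX.T_FLD) : T_PDJ := by
  intro M _ _ r m a N ζ θ hL hadj p hp hpm hpa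
  have := algq
  exact core hVLI hEIV hPIE hGQP hUNK hVB hPFX hFLD (AlgebraicClosure ℚ) M r m a N ζ θ hL hadj p
    hp hpm hpa

end Pool.Agent.H7.REM
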