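import Pool.Agent.H26.REM.Targets

/-!
# Row UPB: the upper bound for the Gram determinant of the lattice of the pairs
-/

set_option autoImplicit false

open NumberField Height Finset Polynomial Pool.Agent.H26.REM

namespace Pool.Agent.H7.REM

/-- The number of the extensions of an embedding. -/
private theorem ext (K M : Type) [Field K] [NumberField K] [Field M] [NumberField M]
    [Algebra K M] (τ : K →+* ℂ) :
    Nat.card {s : M →+* ℂ // s.comp (algebraMap K M) = τ} = Module.finrank K M := by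
  let _ : Algebra K ℂ := τ.toAlgebra
  have h1 : Fintype.card (M →ₐ[K] ℂ) = Module.finrank K M := AlgHom.card K M ℂ
  rw [← h1, ← Nat.card_eq_fintype_card]
  refine Nat.card_congr ⟨fun s => { s.1 with commutes' := fun x => RingHom.congr_fun s.2 x },
    fun f => ⟨f.toRingHom, ?_⟩, fun s => ?_, fun f => ?_⟩
  · ext x
    exact f.commutes x
  · rfl
  · rfl

/-- The number of the elements of the fibres. -/
private theorem fbr (K M : Type) [Field K] [NumberField K] [Field M] [NumberField M]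
    [Algebra K M] (φ : K ≃+* K) (τ : K →+* ℂ) :
    Nat.card {x : (M →+* ℂ) ⊕ (M →+* ℂ) // (Sum.elim (fun s => s.comp (algebraMap K M))
      (fun s => (s.comp (algebraMap K M)).comp φ.toRingHom) x) = τ} ≤
      2 * Module.finrank K M := by
  classical
  have h1 := ext K M τ
  have h2 := ext K M (τ.comp φ.symm.toRingHom)
  have h3 : Nat.card {x : (M →+* ℂ) ⊕ (M →+* ℂ) // (Sum.elim (fun s => s.comp (algebraMap K M))
      (fun s => (s.comp (algebraMap K M)).comp φ.toRingHom) x) = τ} ≤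
      Nat.card ({s : M →+* ℂ // s.comp (algebraMap K M) = τ} ⊕
        {s : M →+* ℂ // s.comp (algebraMap K M) = τ.comp φ.symm.toRingHom}) := by
    have hg : ∀ s : M →+* ℂ, (s.comp (algebraMap K M)).comp φ.toRingHom = τ →
        s.comp (algebraMap K M) = τ.comp φ.symm.toRingHom := by
      intro s hs
      rw [← hs]
      ext x
      simp
    refine Nat.card_le_card_of_injective
      (fun x => match x with
        | ⟨.inl s, hs⟩ => .inl ⟨s, hs⟩
        | ⟨.inr s, hs⟩ => .inr ⟨s, hg s hs⟩) ?_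
    rintro ⟨x | x, hx⟩ ⟨y | y, hy⟩ hxy
    · simpa using hxy
    · simp at hxy
    · simp at hxy
    · simpa using hxy
  rw [Nat.card_sum, h1, h2] at h3
  omega

/-- The weights. -/
private theorem wtl {M S : Type} [Field M] [Finite S] (Y : S → M) (s : M →+* ℂ) (c : S) :
    ‖((wt Y s : ℝ) : ℂ) * s (Y c)‖ ≤ 1 := by
  have h1 : ‖s (Y c)‖ ≤ ⨆ b, ‖s (Y b)‖ :=
    le_ciSup (f := fun b => ‖s (Y b)‖) (Set.finite_range _).bddAbove c
  have h2 : 0 ≤ ⨆ b, ‖s (Y b)‖ := (norm_nonneg _).trans h1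
  rw [norm_mul, Complex.norm_real, Real.norm_eq_abs, wt, abs_inv, abs_of_nonneg h2]
  exact inv_mul_le_one_of_le₀ h1 h2

theorem pf_UPB (hUPA : T_UPA) (hFIB : T_FIB) (hDKG : T_DKG) (hBLE : T_BLE) : T_UPB := by
  classical
  intro K M _ _ _ _ _ φ p S _ Y hY k z hz
  obtain ⟨ω, e, hω, -, hdet⟩ := hDKG K
  obtain ⟨r, b, hF, hFL, hrank⟩ := hUPA K M φ p S Y ω hω
  have hk : Module.finrank ℚ (Submodule.span ℚ (Lam φ p Y : Set (M × M))) = k := by
    rw [← hz.2.1]
    have := finrank_span_eq_card hz.1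
    rwa [Fintype.card_fin] at this
  have hkr : k = Module.finrank ℚ K * r := by rw [← hk, hrank]
  refine ⟨r, hkr, ?_⟩
  have h1 := hBLE (M × M) (EuclideanSpace ℂ ((M →+* ℂ) ⊕ (M →+* ℂ))) (Fin k)
    (Fin (Module.finrank ℚ K) × Fin r) (Lam φ p Y)
    (Submodule.span ℚ (Lam φ p Y : Set (M × M))) (vec2 M (wt Y) (wt fun b => Y b ^ p)) z _ hz hF
    (fun i => ⟨hFL i, Submodule.subset_span (hFL i)⟩) (by simp [hkr])
  refine h1.trans ?_
  have h2 := hFIB ((M →+* ℂ) ⊕ (M →+* ℂ)) (K →+* ℂ)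
    (Sum.elim (fun s => s.comp (algebraMap K M))
      (fun s => (s.comp (algebraMap K M)).comp φ.toRingHom)) (Module.finrank ℚ K) r
    (2 * Module.finrank K M) e (fun l τ => τ (ω l : K))
    (fun j => Sum.elim (fun s => ((wt Y s : ℝ) : ℂ) * s (Y (b j)))
      (fun s => ((wt (fun b => Y b ^ p) s : ℝ) : ℂ) * s (Y (b j) ^ p)))
    (by
      rintro j (s | s)
      · exact wtl Y s (b j)
      · exact wtl (fun b => Y b ^ p) s (b j))
    (fun τ => fbr K M φ τ)
  have h3 : (fun i : Fin (Module.finrank ℚ K) × Fin r =>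
      vec2 M (wt Y) (wt fun b => Y b ^ p) (algebraMap K M (ω i.1 : K) * Y (b i.2),
        algebraMap K M (φ (ω i.1 : K)) * Y (b i.2) ^ p)) =
      fun l : Fin (Module.finrank ℚ K) × Fin r =>
        (WithLp.toLp 2 fun x => (Sum.elim (fun s => s.comp (algebraMap K M))
          (fun s => (s.comp (algebraMap K M)).comp φ.toRingHom) x : K →+* ℂ) (ω l.1 : K) *
          Sum.elim (fun s => ((wt Y s : ℝ) : ℂ) * s (Y (b l.2)))
            (fun s => ((wt (fun b => Y b ^ p) s : ℝ) : ℂ) * s (Y (b l.2) ^ p)) x :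
              EuclideanSpace ℂ ((M →+* ℂ) ⊕ (M →+* ℂ))) := by
    funext l
    ext x
    rcases x with s | s
    · change ((wt Y s : ℝ) : ℂ) * s (algebraMap K M (ω l.1 : K) * Y (b l.2)) =
        s (algebraMap K M (ω l.1 : K)) * (((wt Y s : ℝ) : ℂ) * s (Y (b l.2)))
      rw [map_mul]
      ring
    · change ((wt (fun b => Y b ^ p) s : ℝ) : ℂ) *
          s (algebraMap K M (φ (ω l.1 : K)) * Y (b l.2) ^ p) =
        s (algebraMap K M (φ (ω l.1 : K))) *
          (((wt (fun b => Y b ^ p) s : ℝ) : ℂ) * s (Y (b l.2) ^ p))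
      rw [map_mul]
      ring
  rw [h3]
  refine h2.trans (le_of_eq ?_)
  rw [pow_mul, hdet]
  push_cast
  ring

end Pool.Agent.H7.REM
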